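import Pool.Agent.Helper7.BM.Goals

/-!
# MP_57df85_nt, project BM, packet RG: Runge's method
-/

set_option autoImplicit false

open Finset

namespace Pool.Agent.Helper74.BM

open Pool.Agent.Helper7.BM

namespace RGx

/-- the polynomial part -/
noncomputable def PP (d g : ℕ) (z : ℝ) : ℝ := ∑ k ∈ range (g + 1), cc d k * z ^ (g - k)

theorem sg_real (z m : ℕ) (hz : 2 ≤ z) :
    ((sg z m : ℕ) : ℝ) = ((z : ℝ) ^ (m + 1) - 1) / ((z : ℝ) - 1) := by
  have h1 : (z : ℝ) ≠ 1 := by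
    have : (2 : ℝ) ≤ z := by exact_mod_cast hz
    linarith
  rw [sg, Nat.cast_sum, ← geom_sum_eq h1]
  exact Finset.sum_congr rfl fun i _ => by push_cast; rfl

theorem sg_lower (z m : ℕ) : ((z : ℝ) ^ m) ≤ ((sg z m : ℕ) : ℝ) := by
  have h : z ^ m ≤ sg z m := by
    rw [sg]
    exact Finset.single_le_sum (f := fun i => z ^ i) (fun i _ => Nat.zero_le _)
      (Finset.mem_range.2 (Nat.lt_succ_self m))
  exact_mod_cast h

theorem sg_upper (z m : ℕ) (hz : 2 ≤ z) : ((sg z m : ℕ) : ℝ) < 2 * (z : ℝ) ^ m := by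
  have h2 : (2 : ℝ) ≤ z := by exact_mod_cast hz
  have h3 : (0 : ℝ) < (z : ℝ) - 1 := by linarith
  rw [sg_real z m hz, div_lt_iff₀ h3, pow_succ]
  have h4 : (0 : ℝ) < (z : ℝ) ^ m := by positivity
  nlinarith

/-- The expansion of `(z^(dg) / (1 - 1/z))^(1/d)`. -/
theorem expand (hB : StmtBIN) (d g z : ℕ) (hd : 1 ≤ d) (hz : 2 ≤ z) :
    ∃ u R : ℝ, 0 < u ∧ u ^ d = ((sg z (d * g) : ℕ) : ℝ) + 1 / ((z : ℝ) - 1) ∧
      u = PP d g z + R ∧ cc d (g + 1) / z ≤ R ∧ R ≤ cc d (g + 1) / ((z : ℝ) - 1) := by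
  obtain ⟨hsum, hpos, -, -⟩ := hB d hd
  have h2 : (2 : ℝ) ≤ z := by exact_mod_cast hz
  have hz0 : (0 : ℝ) < z := by linarith
  have hz1 : (0 : ℝ) < (z : ℝ) - 1 := by linarith
  have ht0 : (0 : ℝ) ≤ 1 / (z : ℝ) := by positivity
  have ht1 : 1 / (z : ℝ) < 1 := by
    rw [div_lt_one hz0]
    linarith
  have hs := hsum (1 / (z : ℝ)) ht0 ht1
  have h1t : (0 : ℝ) < 1 - 1 / (z : ℝ) := by linarith
  let s : ℝ := (1 - 1 / (z : ℝ)) ^ (-(1 / (d : ℝ)))
  have hs0 : 0 < s := Real.rpow_pos_of_pos h1t _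
  have hdR : (d : ℝ) ≠ 0 := by
    have : (1 : ℝ) ≤ d := by exact_mod_cast hd
    linarith
  have hsd : s ^ d = (1 - 1 / (z : ℝ))⁻¹ := by
    show ((1 - 1 / (z : ℝ)) ^ (-(1 / (d : ℝ)))) ^ d = _
    rw [← Real.rpow_natCast, ← Real.rpow_mul h1t.le]
    have : -(1 / (d : ℝ)) * d = -1 := by field_simp
    rw [this, Real.rpow_neg_one]
  -- the tail
  have htail : Summable (fun k : ℕ => cc d (k + (g + 1)) * (1 / (z : ℝ)) ^ (k + (g + 1))) :=
    (summable_nat_add_iff (f := fun k : ℕ => cc d k * (1 / (z : ℝ)) ^ k) (g + 1)).2 hs.summable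
  have hsplit := hs.summable.sum_add_tsum_nat_add (g + 1)
  rw [hs.tsum_eq] at hsplit
  have htail' : Summable (fun k : ℕ => cc d (k + (g + 1)) * (1 / (z : ℝ)) ^ (k + 1)) := by
    have h3 := htail.mul_left ((z : ℝ) ^ g)
    refine h3.congr fun k => ?_
    have : (k + (g + 1)) = g + (k + 1) := by ring
    rw [this, pow_add, div_pow (1 : ℝ), one_pow]
    field_simp
  have hgeo : HasSum (fun k : ℕ => cc d (g + 1) * (1 / (z : ℝ)) ^ (k + 1))
      (cc d (g + 1) / ((z : ℝ) - 1)) := by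
    have h3 := (hasSum_geometric_of_lt_one ht0 ht1).mul_left (cc d (g + 1) * (1 / (z : ℝ)))
    have h4 : cc d (g + 1) * (1 / (z : ℝ)) * (1 - 1 / (z : ℝ))⁻¹ =
        cc d (g + 1) / ((z : ℝ) - 1) := by
      have : 1 - 1 / (z : ℝ) = ((z : ℝ) - 1) / z := by field_simp
      rw [this]
      field_simp
    rw [h4] at h3
    refine h3.congr_fun ?_
    intro k
    rw [pow_succ]
    ring
  have hanti : ∀ k, cc d (k + (g + 1)) ≤ cc d (g + 1) := by
    intro k
    induction k with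
    | zero => rw [zero_add]
    | succ k ih =>
      have h5 : k + 1 + (g + 1) = k + (g + 1) + 1 := by ring
      rw [h5]
      exact ((hpos _).2).trans ih
  refine ⟨(z : ℝ) ^ g * s, ∑' k : ℕ, cc d (k + (g + 1)) * (1 / (z : ℝ)) ^ (k + 1),
    by positivity, ?_, ?_, ?_, ?_⟩
  · rw [mul_pow, hsd, sg_real z _ hz, ← pow_mul, mul_comm g d, pow_succ]
    have : 1 - 1 / (z : ℝ) = ((z : ℝ) - 1) / z := by field_simp
    rw [this]
    field_simp
    ring
  · show (z : ℝ) ^ g * s = _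
    have h6 : s = ∑ k ∈ range (g + 1), cc d k * (1 / (z : ℝ)) ^ k +
        ∑' k : ℕ, cc d (k + (g + 1)) * (1 / (z : ℝ)) ^ (k + (g + 1)) := hsplit.symm
    rw [h6, mul_add, PP, Finset.mul_sum, ← tsum_mul_left]
    congr 1
    · refine Finset.sum_congr rfl fun k hk => ?_
      have hk' : k ≤ g := Nat.lt_succ_iff.1 (Finset.mem_range.1 hk)
      have h7 : (z : ℝ) ^ g = (z : ℝ) ^ (g - k) * (z : ℝ) ^ k := by
        rw [← pow_add, Nat.sub_add_cancel hk']
      rw [h7, div_pow, one_pow]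
      field_simp
    · refine tsum_congr fun k => ?_
      have : (k + (g + 1)) = g + (k + 1) := by ring
      rw [this, pow_add, div_pow (1 : ℝ), one_pow]
      field_simp
  · have h8 := htail'.le_tsum 0 (fun k _ => by
      have := (hpos (k + (g + 1))).1
      positivity)
    simpa [div_eq_mul_inv] using h8
  · rw [← hgeo.tsum_eq]
    refine htail'.tsum_le_tsum (fun k => ?_) hgeo.summable
    exact mul_le_mul_of_nonneg_right (hanti k) (by positivity)

/-- Integrality. -/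
theorem PP_int (hB : StmtBIN) (d g α z : ℕ) (hd : 1 ≤ d) (hg : g ≤ α) :
    ∃ m : ℤ, (d : ℝ) ^ α * (α.factorial : ℝ) * PP d g z = m := by
  obtain ⟨-, -, -, hint⟩ := hB d hd
  choose m hm using hint
  have hq : ∀ k : ℕ, ∃ q : ℕ, k ≤ α → q * k.factorial = α.factorial := by
    intro k
    by_cases hk : k ≤ α
    · exact ⟨α.factorial / k.factorial,
        fun _ => Nat.div_mul_cancel (Nat.factorial_dvd_factorial hk)⟩
    · exact ⟨0, fun h => absurd h hk⟩
  choose q hq using hq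
  refine ⟨∑ k ∈ range (g + 1), (d : ℤ) ^ (α - k) * (q k : ℤ) * m k * (z : ℤ) ^ (g - k), ?_⟩
  rw [PP, Finset.mul_sum]
  push_cast
  refine Finset.sum_congr rfl fun k hk => ?_
  have hk' : k ≤ g := Nat.lt_succ_iff.1 (Finset.mem_range.1 hk)
  have hka : k ≤ α := hk'.trans hg
  rw [← hm k]
  have h1 : (d : ℝ) ^ α = (d : ℝ) ^ (α - k) * (d : ℝ) ^ k := by
    rw [← pow_add, Nat.sub_add_cancel hka]
  have h2 : (q k : ℝ) * (k.factorial : ℝ) = (α.factorial : ℝ) := by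
    exact_mod_cast hq k hka
  rw [h1, ← h2]
  ring

end RGx

open RGx

/-- PACKET RG (Runge's method). -/
theorem rg : StmtRG := by
  intro hB d α β x y hd hβ hβα hx hxy hN
  by_contra hcon
  push Not at hcon
  have hd1 : 1 ≤ d := by omega
  have hy : 2 ≤ y := by omega
  have hα : 2 ≤ α := by omega
  obtain ⟨u, Rx, hu0, hud, huP, hRx1, hRx2⟩ := expand hB d α x hd1 hx
  obtain ⟨v, Ry, hv0, hvd, hvP, hRy1, hRy2⟩ := expand hB d β y hd1 hy
  obtain ⟨-, hpos, hcc, -⟩ := hB d hd1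
  have hX2 : (2 : ℝ) ≤ x := by exact_mod_cast hx
  have hY2 : (2 : ℝ) ≤ y := by exact_mod_cast hy
  have hXY : (x : ℝ) + 1 ≤ y := by exact_mod_cast hxy
  have hX1 : (0 : ℝ) < (x : ℝ) - 1 := by linarith
  have hY1 : (0 : ℝ) < (y : ℝ) - 1 := by linarith
  have hD2 : (2 : ℝ) ≤ d := by exact_mod_cast hd
  have hA2 : (2 : ℝ) ≤ α := by exact_mod_cast hα
  have hNR : ((sg x (d * α) : ℕ) : ℝ) = ((sg y (d * β) : ℕ) : ℝ) := by rw [hN]
  have hconR : 4 * (2 * (α : ℝ) + 3) ^ α * (d : ℝ) ^ α < x := by exact_mod_cast hcon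
  -- bounds for the remainders
  have hc1 := hcc (α + 1) (by omega)
  have hc2 := hcc (β + 1) (by omega)
  push_cast at hc1 hc2
  have hRx3 : 1 / ((d : ℝ) * (α + 1) * x) ≤ Rx := by
    refine le_trans ?_ hRx1
    rw [← div_div]
    exact div_le_div_of_nonneg_right hc1.1 (by positivity)
  have hRx4 : Rx ≤ 1 / ((d : ℝ) * (x - 1)) := by
    refine le_trans hRx2 ?_
    rw [← div_div]
    exact div_le_div_of_nonneg_right hc1.2 hX1.le
  have hRy3 : 0 ≤ Ry := le_trans (div_nonneg (hpos _).1.le (by positivity)) hRy1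
  have hRy4 : Ry ≤ 1 / ((d : ℝ) * (y - 1)) := by
    refine le_trans hRy2 ?_
    rw [← div_div]
    exact div_le_div_of_nonneg_right hc2.2 hY1.le
  -- the difference `u - v`
  have huv : u ^ d - v ^ d = 1 / ((x : ℝ) - 1) - 1 / ((y : ℝ) - 1) := by
    rw [hud, hvd, hNR]
    ring
  have hinv : 1 / ((y : ℝ) - 1) < 1 / ((x : ℝ) - 1) :=
    one_div_lt_one_div_of_lt hX1 (by linarith)
  have hvu : v < u := by
    refine lt_of_pow_lt_pow_left₀ d hu0.le ?_
    linarith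
  have hvx : (x : ℝ) ^ α ≤ v := by
    refine le_of_pow_le_pow_left₀ (n := d) (by omega) hv0.le ?_
    rw [← pow_mul, hvd, ← hNR, mul_comm α d]
    have h1 := sg_lower x (d * α)
    have h2 : 0 < 1 / ((y : ℝ) - 1) := by positivity
    linarith
  have hX1' : (1 : ℝ) ≤ x := by linarith
  have hgeom : (d : ℝ) * (x : ℝ) ^ 2 * (u - v) ≤ u ^ d - v ^ d := by
    have h1 := (Commute.all u v).mul_geom_sum₂ d
    rw [← h1, mul_comm (u - v)]
    refine mul_le_mul_of_nonneg_right ?_ (by linarith)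
    have h2 : ∀ i ∈ range d, (x : ℝ) ^ 2 ≤ u ^ i * v ^ (d - 1 - i) := by
      intro i hi
      have hi' : i < d := Finset.mem_range.1 hi
      have h3 : v ^ i ≤ u ^ i := pow_le_pow_left₀ hv0.le hvu.le i
      have h4 : v ^ (d - 1) ≤ u ^ i * v ^ (d - 1 - i) := by
        have h5 : v ^ (d - 1) = v ^ i * v ^ (d - 1 - i) := by
          rw [← pow_add]
          congr 1
          omega
        rw [h5]
        exact mul_le_mul_of_nonneg_right h3 (by positivity)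
      refine le_trans ?_ h4
      have h6 : ((x : ℝ) ^ α) ^ (d - 1) ≤ v ^ (d - 1) := pow_le_pow_left₀ (by positivity) hvx _
      refine le_trans ?_ h6
      rw [← pow_mul]
      refine pow_le_pow_right₀ hX1' ?_
      calc 2 = 2 * 1 := by norm_num
        _ ≤ α * (d - 1) := Nat.mul_le_mul hα (by omega)
    calc (d : ℝ) * (x : ℝ) ^ 2 = ∑ _i ∈ range d, (x : ℝ) ^ 2 := by
          rw [Finset.sum_const, Finset.card_range, nsmul_eq_mul]
      _ ≤ ∑ i ∈ range d, u ^ i * v ^ (d - 1 - i) := Finset.sum_le_sum h2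
  have hΔ : u - v ≤ 1 / ((d : ℝ) * (x - 1) * x ^ 2) := by
    have h1 : (d : ℝ) * (x : ℝ) ^ 2 * (u - v) ≤ 1 / ((x : ℝ) - 1) := by
      have : 0 < 1 / ((y : ℝ) - 1) := by positivity
      linarith
    rw [le_div_iff₀ (by positivity)]
    rw [le_div_iff₀ hX1] at h1
    linarith
  -- the size of `y`
  have hK1 : (1 : ℝ) ≤ (2 * (α : ℝ) + 3) := by linarith
  have hbig1 : 2 * (2 * (α : ℝ) + 3) ^ α < x := by
    have h1 : (1 : ℝ) ≤ (d : ℝ) ^ α := one_le_pow₀ (by linarith)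
    have h2 : (0 : ℝ) < (2 * (α : ℝ) + 3) ^ α := by positivity
    nlinarith
  have hysize : (2 * (α : ℝ) + 3) * x < y := by
    by_contra hle
    push Not at hle
    have h1 : (x : ℝ) ^ (d * α) < 2 * (y : ℝ) ^ (d * β) :=
      lt_of_le_of_lt (sg_lower x (d * α)) (by rw [hNR]; exact sg_upper y _ hy)
    have h2 : (y : ℝ) ^ (d * β) ≤ (2 * (α : ℝ) + 3) ^ (d * β) * (x : ℝ) ^ (d * β) := by
      rw [← mul_pow]
      exact pow_le_pow_left₀ (by positivity) hle _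
    have h3 : (x : ℝ) ^ (d * α) = (x : ℝ) ^ (d * (α - β)) * (x : ℝ) ^ (d * β) := by
      rw [← pow_add, ← mul_add, Nat.sub_add_cancel hβα.le]
    have h4 : (0 : ℝ) < (x : ℝ) ^ (d * β) := by positivity
    have h5 : (x : ℝ) ^ (d * (α - β)) < 2 * (2 * (α : ℝ) + 3) ^ (d * β) := by
      have h6 : (x : ℝ) ^ (d * (α - β)) * (x : ℝ) ^ (d * β) <
          2 * (2 * (α : ℝ) + 3) ^ (d * β) * (x : ℝ) ^ (d * β) := by
        rw [← h3]
        calc (x : ℝ) ^ (d * α) < 2 * (y : ℝ) ^ (d * β) := h1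
          _ ≤ 2 * ((2 * (α : ℝ) + 3) ^ (d * β) * (x : ℝ) ^ (d * β)) := by linarith
          _ = _ := by ring
      exact lt_of_mul_lt_mul_right h6 h4.le
    have h7 : (x : ℝ) ^ d ≤ (x : ℝ) ^ (d * (α - β)) := by
      refine pow_le_pow_right₀ hX1' ?_
      calc d = d * 1 := by ring
        _ ≤ d * (α - β) := Nat.mul_le_mul_left _ (by omega)
    have h8 : 2 * (2 * (α : ℝ) + 3) ^ (d * β) ≤ (2 * (2 * (α : ℝ) + 3) ^ α) ^ d := by
      rw [mul_pow, ← pow_mul, mul_comm α d]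
      have h9 : (2 : ℝ) ≤ 2 ^ d := by
        calc (2 : ℝ) = 2 ^ 1 := by norm_num
          _ ≤ 2 ^ d := pow_le_pow_right₀ (by norm_num) hd1
      have h10 : (2 * (α : ℝ) + 3) ^ (d * β) ≤ (2 * (α : ℝ) + 3) ^ (d * α) :=
        pow_le_pow_right₀ hK1 (Nat.mul_le_mul_left _ hβα.le)
      exact mul_le_mul h9 h10 (by positivity) (by positivity)
    have h11 : (x : ℝ) ^ d < (2 * (2 * (α : ℝ) + 3) ^ α) ^ d := by linarith
    have h12 : (x : ℝ) < 2 * (2 * (α : ℝ) + 3) ^ α :=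
      lt_of_pow_lt_pow_left₀ d (by positivity) h11
    linarith
  have hysize' : 2 * ((α : ℝ) + 1) * x ≤ (y : ℝ) - 1 := by nlinarith
  -- `P < Q`
  have hPQ : PP d α x - PP d β y = Ry - Rx + (u - v) := by linarith
  have hneg : PP d α x - PP d β y < 0 := by
    rw [hPQ]
    have h1 : Ry ≤ 1 / (2 * ((d : ℝ) * (α + 1) * x)) := by
      refine hRy4.trans ?_
      refine one_div_le_one_div_of_le (by positivity) ?_
      nlinarith
    have h2 : 1 / ((d : ℝ) * (x - 1) * x ^ 2) < 1 / (2 * ((d : ℝ) * (α + 1) * x)) := by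
      refine one_div_lt_one_div_of_lt (by positivity) ?_
      have h3 : 2 * ((α : ℝ) + 1) < x := by
        have h4 : (2 * (α : ℝ) + 3) ≤ (2 * (α : ℝ) + 3) ^ α := by
          calc (2 * (α : ℝ) + 3) = (2 * (α : ℝ) + 3) ^ 1 := by ring
            _ ≤ (2 * (α : ℝ) + 3) ^ α := pow_le_pow_right₀ hK1 (by omega)
        linarith
      have h5 : 2 * ((α : ℝ) + 1) < (x - 1) * x := by nlinarith
      have h6 : (0 : ℝ) < (d : ℝ) * x := by positivity
      calc 2 * ((d : ℝ) * (α + 1) * x) = (d * x) * (2 * ((α : ℝ) + 1)) := by ring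
        _ < (d * x) * ((x - 1) * x) := by
          exact mul_lt_mul_of_pos_left h5 h6
        _ = (d : ℝ) * (x - 1) * x ^ 2 := by ring
    have h7 : 1 / (2 * ((d : ℝ) * (α + 1) * x)) + 1 / (2 * ((d : ℝ) * (α + 1) * x)) =
        1 / ((d : ℝ) * (α + 1) * x) := by
      field_simp
      norm_num
    linarith
  have hlow : -(1 / ((d : ℝ) * (x - 1))) ≤ PP d α x - PP d β y := by
    rw [hPQ]
    linarith
  -- integrality
  obtain ⟨m1, hm1⟩ := PP_int hB d α α x hd1 le_rfl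
  obtain ⟨m2, hm2⟩ := PP_int hB d β α y hd1 hβα.le
  have hE : (0 : ℝ) < (d : ℝ) ^ α * (α.factorial : ℝ) := by positivity
  have hmR : ((m2 - m1 : ℤ) : ℝ) = (d : ℝ) ^ α * (α.factorial : ℝ) *
      (PP d β y - PP d α x) := by
    push_cast
    rw [← hm1, ← hm2]
    ring
  have hm0 : (0 : ℝ) < ((m2 - m1 : ℤ) : ℝ) := by
    rw [hmR]
    exact mul_pos hE (by linarith)
  have hm3 : (1 : ℝ) ≤ ((m2 - m1 : ℤ) : ℝ) := by
    have : (0 : ℤ) < m2 - m1 := by exact_mod_cast hm0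
    exact_mod_cast this
  have hm4 : (1 : ℝ) ≤ (d : ℝ) ^ α * (α.factorial : ℝ) * (1 / ((d : ℝ) * (x - 1))) := by
    refine hm3.trans ?_
    rw [hmR]
    exact mul_le_mul_of_nonneg_left (by linarith) hE.le
  rw [mul_one_div, le_div_iff₀ (by positivity), one_mul] at hm4
  have hfac : (α.factorial : ℝ) ≤ (α : ℝ) ^ α := by exact_mod_cast Nat.factorial_le_pow α
  have hαK : (α : ℝ) ^ α ≤ (2 * (α : ℝ) + 3) ^ α := pow_le_pow_left₀ (by positivity) (by linarith) α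
  have hdα : (0 : ℝ) < (d : ℝ) ^ α := by positivity
  have hfin : (x : ℝ) - 1 ≤ (2 * (α : ℝ) + 3) ^ α * (d : ℝ) ^ α := by
    have h1 : (x : ℝ) - 1 ≤ (d : ℝ) * (x - 1) := by nlinarith
    have h2 : (d : ℝ) ^ α * (α.factorial : ℝ) ≤ (d : ℝ) ^ α * (2 * (α : ℝ) + 3) ^ α :=
      mul_le_mul_of_nonneg_left (hfac.trans hαK) hdα.le
    linarith
  have hone : (1 : ℝ) ≤ (2 * (α : ℝ) + 3) ^ α * (d : ℝ) ^ α := by
    have h1 : (1 : ℝ) ≤ (d : ℝ) ^ α := one_le_pow₀ (by linarith)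
    have h2 : (1 : ℝ) ≤ (2 * (α : ℝ) + 3) ^ α := one_le_pow₀ hK1
    nlinarith
  linarith

end Pool.Agent.Helper74.BM
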